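import Pool.Agent.H37.CSZ.Stmts

/-!
# Row ZU1 of the board `csz`: the order of the Suzuki groups and their Sylow 2-subgroups
-/

set_option autoImplicit false

namespace Pool.CND

open Matrix

namespace ZU1

variable {F : Type} [Field F] [CharP F 2] (φ : F →+* F)

theorem mul_entry (g h : Sz φ) (i j : Fin 4) :
    (g * h).1.1 i j = g.1.1 i 0 * h.1.1 0 j + g.1.1 i 1 * h.1.1 1 j + g.1.1 i 2 * h.1.1 2 j +
      g.1.1 i 3 * h.1.1 3 j := by
  have e : (g * h).1.1 = g.1.1 * h.1.1 := rfl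
  rw [e, Matrix.mul_apply, Fin.sum_univ_four]

theorem one_entry (i j : Fin 4) : (1 : Sz φ).1.1 i j = if i = j then 1 else 0 := by
  have e : (1 : Sz φ).1.1 = 1 := rfl
  rw [e, Matrix.one_apply]

/-- the stabiliser of the line of the first unit vector -/
def Bor : Subgroup (Sz φ) where
  carrier := {g | g.1.1 1 0 = 0 ∧ g.1.1 2 0 = 0 ∧ g.1.1 3 0 = 0}
  mul_mem' := by
    rintro g h ⟨h1, h2, h3⟩ ⟨k1, k2, k3⟩
    refine ⟨?_, ?_, ?_⟩
    · rw [mul_entry, h1, k1, k2, k3]; ring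
    · rw [mul_entry, h2, k1, k2, k3]; ring
    · rw [mul_entry, h3, k1, k2, k3]; ring
  one_mem' := by
    refine ⟨?_, ?_, ?_⟩
    · rw [one_entry]; rfl
    · rw [one_entry]; rfl
    · rw [one_entry]; rfl
  inv_mem' := by
    rintro g ⟨h1, h2, h3⟩
    have key : ∀ i : Fin 4, (g⁻¹).1.1 i 0 * g.1.1 0 0 = if i = 0 then 1 else 0 := by
      intro i
      have := mul_entry φ g⁻¹ g i 0
      rw [inv_mul_cancel, one_entry, h1, h2, h3] at this
      rw [this]
      ring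
    have h00 : g.1.1 0 0 ≠ 0 := by
      intro h
      have := key 0
      rw [h, mul_zero] at this
      simp at this
    refine ⟨?_, ?_, ?_⟩
    · have := key 1
      rw [if_neg (by decide)] at this
      exact (mul_eq_zero.1 this).resolve_right h00
    · have := key 2
      rw [if_neg (by decide)] at this
      exact (mul_eq_zero.1 this).resolve_right h00
    · have := key 3
      rw [if_neg (by decide)] at this
      exact (mul_eq_zero.1 this).resolve_right h00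

theorem mem_bor (g : Sz φ) :
    g ∈ Bor φ ↔ g.1.1 1 0 = 0 ∧ g.1.1 2 0 = 0 ∧ g.1.1 3 0 = 0 := Iff.rfl

/-- the stabiliser of the first unit vector -/
def Syl : Subgroup (Sz φ) where
  carrier := {g | g.1.1 1 0 = 0 ∧ g.1.1 2 0 = 0 ∧ g.1.1 3 0 = 0 ∧ g.1.1 0 0 = 1}
  mul_mem' := by
    rintro g h ⟨h1, h2, h3, h4⟩ ⟨k1, k2, k3, k4⟩
    refine ⟨?_, ?_, ?_, ?_⟩
    · rw [mul_entry, h1, k1, k2, k3]; ring
    · rw [mul_entry, h2, k1, k2, k3]; ring
    · rw [mul_entry, h3, k1, k2, k3]; ring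
    · rw [mul_entry, h4, k1, k2, k3, k4]; ring
  one_mem' := by
    refine ⟨?_, ?_, ?_, ?_⟩
    · rw [one_entry]; rfl
    · rw [one_entry]; rfl
    · rw [one_entry]; rfl
    · rw [one_entry]; rfl
  inv_mem' := by
    rintro g ⟨h1, h2, h3, h4⟩
    have hB := (Bor φ).inv_mem ((mem_bor φ g).2 ⟨h1, h2, h3⟩)
    refine ⟨hB.1, hB.2.1, hB.2.2, ?_⟩
    have := mul_entry φ g⁻¹ g 0 0
    rw [inv_mul_cancel, one_entry, h1, h2, h3, h4, if_pos rfl] at this
    linear_combination -this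

theorem mem_syl (g : Sz φ) : g ∈ Syl φ ↔
    g.1.1 1 0 = 0 ∧ g.1.1 2 0 = 0 ∧ g.1.1 3 0 = 0 ∧ g.1.1 0 0 = 1 := Iff.rfl

theorem det_j4 : (J4 F).det = 1 := by
  simp [J4, Matrix.det_succ_row_zero, Fin.sum_univ_succ, Fin.succAbove]
  ring

theorem mnr_j4 : mnr (J4 F) = (J4 F).map φ := by
  have h2 : (-1 : F) = 1 := CharTwo.neg_eq 1
  ext a b
  fin_cases a <;> fin_cases b <;> simp [mnr, J4, pr1, pr2, h2]

/-- the antidiagonal matrix -/
def w0 : Sz φ := ⟨⟨J4 F, det_j4⟩, by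
  refine ⟨?_, mnr_j4 φ⟩
  have e : (J4 F)ᵀ = J4 F := by
    ext i j
    fin_cases i <;> fin_cases j <;> simp [J4, Matrix.transpose_apply]
  show (J4 F)ᵀ * J4 F * J4 F = J4 F
  rw [e, j4_sq, Matrix.one_mul]⟩

theorem mul_w0 (g : Sz φ) (i : Fin 4) : (g * w0 φ).1.1 i 0 = g.1.1 i 3 := by
  rw [mul_entry]
  have e : (w0 φ).1.1 = J4 F := rfl
  rw [e]
  simp [J4]

theorem w0_mul (g : Sz φ) (i j : Fin 4) : (w0 φ * g).1.1 i j = g.1.1 (3 - i) j := by
  rw [mul_entry]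
  have e : (w0 φ).1.1 = J4 F := rfl
  rw [e]
  fin_cases i <;> simp [J4]

theorem w0_sq : w0 φ * w0 φ = 1 := by
  apply Subtype.ext
  apply Subtype.ext
  show J4 F * J4 F = 1
  exact j4_sq F

end ZU1

open ZU1 in
theorem zu1_thm (hZZB : S_ZZB) (hZZC : S_ZZC) : S_ZU1 := by
  intro n q f F _ _ φ hn hf hq hF hφ
  obtain ⟨hb1, hb2, hb3, -⟩ := hZZB n q f F φ hn hf hq hF hφ
  have hcu := hZZC n q f F φ hn hf hq hF hφ
  have hq1 : 1 < q := by
    rw [hq]
    exact Nat.one_lt_two_pow (by omega)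
  have hfin : Finite F := Nat.finite_of_card_ne_zero (by omega)
  have hfinG : Finite (Sz φ) := inferInstance
  have hB : Nat.card (Bor φ) = q ^ 2 * (q - 1) := by
    rw [← hb2]
    exact Nat.card_congr (Equiv.subtypeEquivRight fun g => Iff.rfl)
  have hS : Nat.card (Syl φ) = q ^ 2 := by
    rw [← hb3]
    exact Nat.card_congr (Equiv.subtypeEquivRight fun g => Iff.rfl)
  -- elements of the stabiliser with trivial last column
  have hlast : ∀ v : Sz φ, v ∈ Syl φ → v.1.1 0 3 = 0 → v.1.1 1 3 = 0 → v.1.1 2 3 = 0 → v = 1 := by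
    rintro v ⟨h1, h2, h3, h4⟩ - h6 h7
    obtain ⟨-, -, -, -, -, hh⟩ := hb1 v h1 h2 h3
    obtain ⟨-, -, e1, -, e2, e3⟩ := hh h4
    have h01 : v.1.1 0 1 = 0 := by rw [e1, h7]
    rw [h01, map_zero, mul_zero, add_zero, h6] at e2
    exact e3 h01 e2.symm
  have h33 : ∀ v : Sz φ, v ∈ Syl φ → v.1.1 3 3 = 1 := by
    rintro v ⟨h1, h2, h3, h4⟩
    obtain ⟨-, -, -, -, e1, -⟩ := hb1 v h1 h2 h3
    rw [h4, one_mul] at e1
    exact e1
  -- the cosets
  have hidx : q ^ 2 + 1 ≤ (Bor φ).index := by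
    have hfinQ : Finite (Syl φ) := inferInstance
    let θ : Option (Syl φ) → Sz φ ⧸ Bor φ := fun o =>
      match o with
      | none => ((1 : Sz φ) : Sz φ ⧸ Bor φ)
      | some u => (((u : Sz φ) * w0 φ : Sz φ) : Sz φ ⧸ Bor φ)
    have hnone : ∀ u : Syl φ, θ none ≠ θ (some u) := by
      intro u h
      have h1 : (1 : Sz φ)⁻¹ * ((u : Sz φ) * w0 φ) ∈ Bor φ := QuotientGroup.eq.1 h
      rw [inv_one, one_mul, mem_bor, mul_w0, mul_w0, mul_w0, h33 u u.2] at h1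
      exact one_ne_zero h1.2.2
    have hinj : Function.Injective θ := by
      intro o o' h
      rcases o with _ | u <;> rcases o' with _ | u'
      · rfl
      · exact absurd h (hnone u')
      · exact absurd h.symm (hnone u)
      · have h1 : ((u : Sz φ) * w0 φ)⁻¹ * ((u' : Sz φ) * w0 φ) ∈ Bor φ := QuotientGroup.eq.1 h
        have h2 : (w0 φ)⁻¹ = w0 φ := inv_eq_of_mul_eq_one_left (w0_sq φ)
        have h3 : ((u : Sz φ) * w0 φ)⁻¹ * ((u' : Sz φ) * w0 φ) =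
            w0 φ * (((u : Sz φ)⁻¹ * u') * w0 φ) := by
          rw [_root_.mul_inv_rev, h2]
          group
        have hv : (u : Sz φ)⁻¹ * u' ∈ Syl φ := (Syl φ).mul_mem ((Syl φ).inv_mem u.2) u'.2
        rw [h3, mem_bor, w0_mul, w0_mul, w0_mul, mul_w0, mul_w0, mul_w0] at h1
        have h4 : (u : Sz φ)⁻¹ * u' = 1 := hlast _ hv h1.2.2 h1.2.1 h1.1
        have h5 : (u : Sz φ) = u' := inv_mul_eq_one.1 h4
        rw [Subtype.ext h5]
    have h1 := Nat.card_le_card_of_injective θ hinj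
    rw [Finite.card_option, hS] at h1
    exact h1
  have hord : Nat.card (Sz φ) = q ^ 2 * ((q - 1) * (q ^ 2 + 1)) := by
    refine le_antisymm hcu ?_
    rw [← (Bor φ).card_mul_index, hB, ← mul_assoc]
    exact Nat.mul_le_mul_left _ hidx
  refine ⟨hfinG, hord, ?_⟩
  rintro W ⟨r, hW⟩
  have hfact : Fact (Nat.Prime 2) := ⟨Nat.prime_two⟩
  have hq2pos : 0 < q ^ 2 := by positivity
  have hSidx : (Syl φ).index = (q - 1) * (q ^ 2 + 1) := by
    have h1 := (Syl φ).card_mul_index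
    rw [hS, hord] at h1
    exact Nat.eq_of_mul_eq_mul_left hq2pos h1
  have hqe : 2 ∣ q := by
    rw [hq]
    exact dvd_pow_self 2 (by omega)
  have hSp : IsPGroup 2 (Syl φ) := by
    apply IsPGroup.of_card (n := (2 * n + 1) * 2)
    rw [hS, hq, ← pow_mul]
  have hSn : ¬ 2 ∣ (Syl φ).index := by
    rw [hSidx, Nat.prime_two.dvd_mul]
    have h1 : 2 ∣ q ^ 2 := dvd_pow hqe (by norm_num)
    omega
  have hWp : IsPGroup 2 W := IsPGroup.of_card hW
  obtain ⟨P, hP⟩ := hWp.exists_le_sylow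
  obtain ⟨h, hh⟩ := MulAction.exists_smul_eq (Sz φ) P (hSp.toSylow hSn)
  refine ⟨h, fun w hw => ?_⟩
  have h1 : h * w * h⁻¹ ∈ (h • P : Sylow 2 (Sz φ)) := by
    have h2 : w ∈ P := hP hw
    have h3 := Subgroup.smul_mem_pointwise_smul w (MulAut.conj h) P.1 h2
    exact h3
  rw [hh] at h1
  exact h1

end Pool.CND
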